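import Pool.Agent.Run7.h968.TN.Rel

/-!
# Project TN (helper968), piece coind: co-induction of a finite set from a subgroup
-/

set_option autoImplicit false

open MeasureTheory

namespace Run7.h300.TN

open Pool.Agent.Run7.h968.TN

/-- coordinatewise measure preserving maps composed with a permutation of the coordinates preserve
the product measure -/
theorem inf_pres {ι X : Type} [MeasurableSpace X] (ν : Measure X) [IsProbabilityMeasure ν]
    (σ : Equiv.Perm ι) (g : ι → X → X) (hg : ∀ c, MeasurePreserving (g c) ν ν) :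
    MeasurePreserving (fun (w : ι → X) c => g c (w (σ c))) (Measure.infinitePi fun _ : ι => ν)
      (Measure.infinitePi fun _ : ι => ν) := by
  classical
  have hm : Measurable (fun (w : ι → X) c => g c (w (σ c))) :=
    measurable_pi_lambda _ fun c => (hg c).measurable.comp (measurable_pi_apply _)
  refine ⟨hm, ?_⟩
  refine Measure.eq_infinitePi _ ?_
  intro s t ht
  rw [Measure.map_apply hm (MeasurableSet.pi s.countable_toSet (fun i _ => ht i))]
  have hset : (fun (w : ι → X) c => g c (w (σ c))) ⁻¹' (Set.pi (↑s) t) =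
      Set.pi (↑(s.map σ.toEmbedding)) (fun c => g (σ.symm c) ⁻¹' t (σ.symm c)) := by
    ext w
    simp only [Set.mem_preimage, Set.mem_pi, Finset.mem_coe, Finset.mem_map,
      Equiv.coe_toEmbedding]
    constructor
    · rintro hw _ ⟨e, he, rfl⟩
      rw [Equiv.symm_apply_apply]
      exact hw e he
    · intro hw e he
      have := hw (σ e) ⟨e, he, rfl⟩
      rwa [Equiv.symm_apply_apply] at this
  rw [hset, Measure.infinitePi_pi _ (fun i _ => (hg _).measurable (ht _)), Finset.prod_map]
  refine Finset.prod_congr rfl fun e _ => ?_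
  have h1 : σ.symm (σ e) = e := σ.symm_apply_apply e
  show ν (g (σ.symm (σ e)) ⁻¹' t (σ.symm (σ e))) = ν (t e)
  rw [h1]
  exact (hg e).measure_preimage (ht e).nullMeasurableSet

theorem unif_pres {X : Type} [Finite X] [MeasurableSpace X] [MeasurableSingletonClass X]
    (c : ENNReal) (e : Equiv.Perm X) :
    MeasurePreserving e (c • (Measure.count : Measure X)) (c • Measure.count) := by
  have hm : Measurable e := measurable_of_countable _
  refine ⟨hm, ?_⟩
  refine Measure.ext_of_singleton fun a => ?_
  rw [Measure.map_apply hm (measurableSet_singleton a)]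
  have h1 : e ⁻¹' {a} = {e.symm a} := by
    ext x
    simp only [Set.mem_preimage, Set.mem_singleton_iff]
    exact ⟨fun h => by rw [← h, Equiv.symm_apply_apply], fun h => by rw [h, Equiv.apply_symm_apply]⟩
  rw [h1, Measure.smul_apply, Measure.smul_apply, Measure.count_singleton, Measure.count_singleton]

theorem t_coind : P_coind := by
  classical
  intro G _ _ K K' hfin
  have hfinQ : Finite (K ⧸ K') := Subgroup.finite_quotient_of_finiteIndex
  have hidx0 : (K'.index : ENNReal) ≠ 0 := by
    exact_mod_cast hfin.index_ne_zero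
  let C : Type := Quotient (QuotientGroup.rightRel K)
  let q : G → C := fun x => Quotient.mk _ x
  have hq : ∀ a b : G, q a = q b ↔ b * a⁻¹ ∈ K := by
    intro a b
    rw [← QuotientGroup.rightRel_apply]
    exact Quotient.eq
  let r : C → G := Quotient.out
  have hr : ∀ c, q (r c) = c := fun c => Quotient.out_eq c
  have hκ : ∀ x : G, x * (r (q x))⁻¹ ∈ K := fun x => (hq _ _).1 (hr (q x))
  let κ : G → K := fun x => ⟨x * (r (q x))⁻¹, hκ x⟩
  have hκr : ∀ x : G, (κ x : G) * r (q x) = x := by
    intro x
    show x * (r (q x))⁻¹ * r (q x) = x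
    rw [inv_mul_cancel_right]
  have hqs : ∀ (s : K) (x : G), q (s * x) = q x := by
    intro s x
    rw [eq_comm, hq, mul_inv_cancel_right]
    exact s.2
  have hκs : ∀ (s : K) (x : G), κ (s * x) = s * κ x := by
    intro s x
    apply Subtype.ext
    show (s : G) * x * (r (q (s * x)))⁻¹ = (s : G) * (x * (r (q x))⁻¹)
    rw [hqs, mul_assoc]
  let mX : MeasurableSpace (K ⧸ K') := ⊤
  have : MeasurableSingletonClass (K ⧸ K') := ⟨fun _ => MeasurableSpace.measurableSet_top⟩
  let ν : Measure (K ⧸ K') := (K'.index : ENNReal)⁻¹ • Measure.count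
  have hν1 : ∀ z : K ⧸ K', ν {z} = (K'.index : ENNReal)⁻¹ := by
    intro z
    show ((K'.index : ENNReal)⁻¹ • (Measure.count : Measure (K ⧸ K'))) {z} = _
    rw [Measure.smul_apply, Measure.count_singleton, smul_eq_mul, mul_one]
  have hνp : IsProbabilityMeasure ν := by
    refine ⟨?_⟩
    let _ : Fintype (K ⧸ K') := Fintype.ofFinite _
    show ((K'.index : ENNReal)⁻¹ • (Measure.count : Measure (K ⧸ K'))) Set.univ = 1
    have h2 : (Measure.count : Measure (K ⧸ K')) Set.univ = (K'.index : ENNReal) := by
      rw [← Finset.coe_univ, Measure.count_apply_finset, Finset.card_univ,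
        Subgroup.index_eq_card, Nat.card_eq_fintype_card]
    rw [Measure.smul_apply, h2, smul_eq_mul]
    exact ENNReal.inv_mul_cancel hidx0 (ENNReal.natCast_ne_top _)
  let Ω : Type := C → K ⧸ K'
  let P : Measure Ω := Measure.infinitePi fun _ : C => ν
  let y : G → Ω → K ⧸ K' := fun x w => κ x • w (q x)
  have hy : ∀ (s : K) (x : G) (w : Ω), y (s * x) w = s • y x w := by
    intro s x w
    show κ (s * x) • w (q (s * x)) = s • (κ x • w (q x))
    rw [hκs, hqs, mul_smul]
  let τ : G → Ω → Ω := fun h w c => κ (r c * h) • w (q (r c * h))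
  have hτy : ∀ (h : G) (w : Ω) (c : C), τ h w c = y (r c * h) w := fun _ _ _ => rfl
  have hσ : ∀ (h : G) (c : C), q (r (q (r c * h)) * h⁻¹) = c := by
    intro h c
    conv_rhs => rw [← hr c]
    rw [hq]
    have h1 := hκ (r c * h)
    have h2 : r c * (r (q (r c * h)) * h⁻¹)⁻¹ = r c * h * (r (q (r c * h)))⁻¹ := by
      group
    rw [h2]
    exact h1
  let σ : G → Equiv.Perm C := fun h =>
    { toFun := fun c => q (r c * h)
      invFun := fun c => q (r c * h⁻¹)
      left_inv := fun c => hσ h c
      right_inv := fun c => by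
        have := hσ h⁻¹ c
        rwa [inv_inv] at this }
  refine ⟨Ω, inferInstance, P, inferInstance, τ, y, ?_, ?_, ?_, hy, ?_⟩
  · intro h
    exact inf_pres ν (σ h) (fun c z => κ (r c * h) • z)
      (fun c => unif_pres _ (MulAction.toPerm (κ (r c * h)) : Equiv.Perm (K ⧸ K')))
  · intro x z
    have h1 : Measurable (fun w : Ω => y x w) := by
      have h2 : Measurable (fun z : K ⧸ K' => κ x • z) := measurable_of_countable _
      exact h2.comp (measurable_pi_apply (q x))
    exact h1 (measurableSet_singleton z)
  · intro x h w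
    show κ x • (τ h w (q x)) = y (x * h) w
    rw [hτy, ← hy, ← mul_assoc, hκr]
  · intro z
    have h1 : {w : Ω | y 1 w = z} = (fun w : Ω => w (q 1)) ⁻¹' {(κ 1)⁻¹ • z} := by
      ext w
      simp only [Set.mem_preimage, Set.mem_singleton_iff]
      show κ 1 • w (q 1) = z ↔ _
      exact ⟨fun h => by rw [← h, inv_smul_smul], fun h => by rw [h, smul_inv_smul]⟩
    rw [h1, ← hν1 ((κ 1)⁻¹ • z)]
    exact (measurePreserving_eval_infinitePi (fun _ : C => ν) (q 1)).measure_preimage
      (measurableSet_singleton _).nullMeasurableSet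

end Run7.h300.TN
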